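import Pool.Agent.K1H14.LD.Alg
import Pool.Agent.Y110.Kf

/-!
# Homological equivalence, traces and ranks
-/

open CategoryTheory AlgebraicGeometry

universe u v w

namespace Pool.Agent.K1H14.LD

open Pool.Agent.H914 Pool.Agent.H914.VarClass Pool.Agent.H914.VarClass.Obj Pool.Agent.W492.BB
  Pool.Agent.W550.Corr Pool.Agent.TH133 Pool.Agent.TH829.Prime Pool.Agent.TH829.Kim
  Pool.Agent.Y110

set_option linter.unusedSectionVars false

variable {k : Type u} [Field k] {𝒱 : VarClass k} {C : TheoryData.{u, v, 0} 𝒱 ℚ}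
  [hC : IsChowProj C] {K : Type w} [Field K]
  {H : WeilTheoryData.{u, v, w} C K} [hH : IsWeilProj H] {X Y Z W P : 𝒱.Obj}

include hC hH

lemma cl_smul {a : C.A X} (c : ℚ) (h : H.cl a = 0) : H.cl (c • a) = 0 := by
  rw [← one_mul a, ← smul_mul_assoc, map_mul, h, mul_zero]

variable (H) in
/-- Homological equivalence: the homologically trivial classes of codimension `i` on `X`. -/
noncomputable def homFam : Family C := fun X i =>
  { carrier := {z | C.Deg i z ∧ H.cl z = 0}
    zero_mem' := ⟨Submodule.zero_mem _, map_zero _⟩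
    add_mem' := by
      rintro a b ⟨h1, h2⟩ ⟨h3, h4⟩
      exact ⟨Submodule.add_mem _ h1 h3, by rw [map_add, h2, h4, add_zero]⟩
    smul_mem' := by
      rintro q a ⟨h1, h2⟩
      exact ⟨Submodule.smul_mem _ q h1, cl_smul q h2⟩ }

lemma mem_homFam {i : ℤ} {z : C.A X} : z ∈ homFam H X i ↔ C.Deg i z ∧ H.cl z = 0 := Iff.rfl

variable (H) in
lemma isAdequate_homFam : IsAdequate C (homFam H) where
  le_gr X i a ha := ha.1
  pull_mem f i b hb := ⟨C.pull_mem f hb.1, by rw [TheoryData.up, H.cl_pull, hb.2, map_zero]⟩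
  push_mem f i a ha := by
    refine ⟨?_, by rw [TheoryData.down, H.cl_push, ha.2, map_zero]⟩
    have h5 := C.push_mem f ha.1
    rwa [one_mul] at h5
  mul_mem ha hb := ⟨C.mul_mem ha.1 hb, by rw [TheoryData.mul, map_mul, ha.2, zero_mul]⟩

variable (H) in
lemma one_notMem_homFam (X : 𝒱.Obj) : (1 : C.A X) ∉ homFam H X 0 := by
  intro h
  have h1 := h.2
  rw [map_one] at h1
  exact hH.one_ne_zero X h1

variable (H) in
lemma homFam_le : homFam H ≤ numFam C :=
  (isAdequate_homFam H).le_numFam (one_notMem_homFam H)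

/-! ### Scalars -/

lemma exists_sc (a : H.A X) : ∃ c : K, H.push (snd X X) (H.pull (fst X X) a) = c • (1 : H.A X) := by
  have h := span_gr H X a
  induction h using Submodule.iSup_induction' with
  | mem i a hi =>
    have h2 := H.push_mem (snd X X) (H.pull_mem (fst X X) hi)
    rcases lt_trichotomy i (2 * X.dim) with h1 | h1 | h1
    · refine ⟨0, ?_⟩
      rw [H.gr_neg _ _ (by
        rw [dim_prod]
        push_cast
        linarith)] at h2
      rw [(Submodule.mem_bot _).1 h2, zero_smul]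
    · have e : i + 2 * ((X.dim : ℤ) - (X.prod X).dim) = 0 := by
        rw [dim_prod, h1]
        push_cast
        ring
      rw [e] at h2
      exact hH.gr_zero X _ h2
    · refine ⟨0, ?_⟩
      rw [gr_top H h1] at hi
      rw [(Submodule.mem_bot _).1 hi, map_zero, map_zero, zero_smul]
  | zero => exact ⟨0, by rw [map_zero, map_zero, zero_smul]⟩
  | add a b _ _ ha hb =>
    obtain ⟨c, hc⟩ := ha
    obtain ⟨d, hd⟩ := hb
    exact ⟨c + d, by rw [map_add, map_add, hc, hd, add_smul]⟩

/-- The integral of a class over a factor. -/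
noncomputable def sc (a : H.A X) : K := (exists_sc a).choose

lemma sc_spec (a : H.A X) : H.push (snd X X) (H.pull (fst X X) a) = sc a • (1 : H.A X) :=
  (exists_sc a).choose_spec

omit hC hH in
/-- The sign `(-1)^n`. -/
def sgn (s : Bool) : ℤ := if s then 1 else -1

lemma gc (hg : GradedCommutative H) {s : Bool} {n : ℤ} (hs : Par s n) {a b : H.A W}
    (ha : a ∈ H.gr W n) (hb : b ∈ H.gr W n) : a * b = sgn s • (b * a) := by
  unfold Par at hs
  unfold sgn
  cases s
  · rw [if_neg Bool.false_ne_true] at hs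
    rw [if_neg Bool.false_ne_true, neg_smul, one_smul]
    exact gc_odd hg ha hb (hs.mul hs)
  · rw [if_pos rfl] at hs
    rw [if_pos rfl, one_smul]
    exact gc_even hg ha hb (hs.mul_right _)

lemma act_ext_sc (hg : GradedCommutative H) {s : Bool} {n : ℤ} (hs : Par s n) {u v a : H.A X}
    (hv : v ∈ H.gr X n) (ha : a ∈ H.gr X n) :
    H.act (H.ext u v) a = (sgn s * sc (u * a)) • v := by
  have h1 := gc hg hs (H.pull_mem (snd X X) hv) (H.pull_mem (fst X X) ha)
  rw [TheoryData.act_apply, TheoryData.ext, mul_assoc, h1, mul_smul_comm, ← mul_assoc, ← map_mul,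
    map_zsmul, H.proj_right, sc_spec, smul_mul_assoc, one_mul, mul_smul, ← Int.cast_smul_eq_zsmul K]

/-- The rank of an idempotent of `H^n(X)`, its Kunneth decomposition, and its trace. -/
lemma rank_data (hg : GradedCommutative H) {s : Bool} {n : ℤ} (hs : Par s n)
    {γ : C.A (X.prod X)} (hγ : γ ∈ C.gr (X.prod X) X.dim)
    (h0 : ∀ (l : ℤ) (a : H.A X), a ∈ H.gr X l → l ≠ n → H.act (H.cl γ) a = 0)
    (h1 : ∀ a ∈ H.gr X n, H.act (H.cl γ) (H.act (H.cl γ) a) = H.act (H.cl γ) a) {r : ℕ}
    (hr : Module.finrank K ((H.gr X n).map (H.actL (H.cl γ))) = r) :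
    ∃ (u v : Fin r → H.A X), (∀ j, u j ∈ H.gr X (2 * X.dim - n)) ∧ (∀ j, v j ∈ H.gr X n) ∧
      H.cl γ = ∑ j, H.ext (u j) (v j) ∧
      ∀ q : ℚ, HasDegree C (ev γ (𝟙 X) (𝟙 X)) q → q = sgn s * r := by
  classical
  obtain ⟨m, p, u₀, v₀, hu₀, hv₀, huv⟩ := exists_kunneth H X
  set N : Submodule K (H.A X) := (H.gr X n).map (H.actL (H.cl γ)) with hN
  -- the class of `γ`
  have hcl : H.cl γ = ∑ i, H.ext (u₀ i) (H.act (H.cl γ) (v₀ i)) := by
    have h2 : H.cl γ = H.comp (H.cl (dg C X)) (H.cl γ) := by rw [cl_dg, dg_comp]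
    conv_lhs => rw [h2, huv, sum_comp]
    exact Finset.sum_congr rfl fun i _ => comp_ext_act _ _ _
  have hw : ∀ i, H.act (H.cl γ) (v₀ i) ∈ H.gr X n := by
    intro i
    by_cases h : (2 * X.dim - p i : ℤ) = n
    · have h3 := actH_mem (H := H) (e := 0) (Γ := γ) (by rwa [add_zero]) (hv₀ i)
      rwa [mul_zero, add_zero, h] at h3
    · rw [h0 _ _ (hv₀ i) h]
      exact Submodule.zero_mem _
  have hwN : ∀ i, H.act (H.cl γ) (v₀ i) ∈ N := by
    intro i
    by_cases h : (2 * X.dim - p i : ℤ) = n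
    · exact Submodule.mem_map.2 ⟨v₀ i, h ▸ hv₀ i, rfl⟩
    · rw [h0 _ _ (hv₀ i) h]
      exact Submodule.zero_mem _
  have hNle : N ≤ Submodule.span K (Set.range fun i => H.act (H.cl γ) (v₀ i)) := by
    rintro _ ⟨a, ha, rfl⟩
    have h3 : H.actL (H.cl γ) a = ∑ i, H.act (H.ext (u₀ i) (H.act (H.cl γ) (v₀ i))) a := by
      rw [TheoryData.actL_apply]
      conv_lhs => rw [hcl, act_sum]
    rw [h3]
    refine Submodule.sum_mem _ fun i _ => ?_
    rw [act_ext_sc hg hs (hw i) ha]
    exact Submodule.smul_mem _ _ (Submodule.subset_span ⟨i, rfl⟩)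
  have hfin : FiniteDimensional K N := by
    have : FiniteDimensional K (Submodule.span K (Set.range fun i => H.act (H.cl γ) (v₀ i))) :=
      FiniteDimensional.span_of_finite K (Set.finite_range _)
    exact Submodule.finiteDimensional_of_le hNle
  let b : Module.Basis (Fin r) K N := Module.finBasisOfFinrankEq K N hr
  have hb : ∀ j, (b j : H.A X) ∈ H.gr X n := by
    intro j
    obtain ⟨a, ha, h3⟩ := (b j).2
    rw [← h3]
    have h4 := actH_mem (H := H) (e := 0) (Γ := γ) (by rwa [add_zero]) ha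
    rwa [mul_zero, add_zero] at h4
  have hact : ∀ j, H.act (H.cl γ) (b j : H.A X) = b j := by
    intro j
    obtain ⟨a, ha, h3⟩ := (b j).2
    rw [TheoryData.actL_apply] at h3
    rw [← h3, h1 a ha]
  let c : Fin m → Fin r → K := fun i j => b.repr ⟨_, hwN i⟩ j
  have hc : ∀ i, H.act (H.cl γ) (v₀ i) = ∑ j, c i j • (b j : H.A X) := by
    intro i
    have h3 := b.sum_repr ⟨_, hwN i⟩
    have h4 := congrArg (Subtype.val) h3
    rw [AddSubmonoidClass.coe_finsetSum] at h4
    exact h4.symm
  have hclu : H.cl γ = ∑ j, H.ext (∑ i, c i j • u₀ i) (b j : H.A X) := by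
    rw [hcl]
    have h3 : ∀ i, H.ext (u₀ i) (H.act (H.cl γ) (v₀ i)) =
        ∑ j, H.ext (c i j • u₀ i) (b j : H.A X) := by
      intro i
      rw [hc i, TheoryData.ext, map_sum, Finset.mul_sum]
      refine Finset.sum_congr rfl fun j _ => ?_
      rw [TheoryData.ext, map_smul, map_smul, mul_smul_comm, smul_mul_assoc]
    rw [Finset.sum_congr rfl fun i _ => h3 i, Finset.sum_comm]
    refine Finset.sum_congr rfl fun j _ => ?_
    rw [TheoryData.ext, map_sum, Finset.sum_mul]
    rfl
  refine ⟨fun j => ∑ i, c i j • u₀ i, fun j => b j, fun j => ?_, hb, hclu, ?_⟩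
  · refine Submodule.sum_mem _ fun i _ => ?_
    by_cases h : (2 * X.dim - p i : ℤ) = n
    · have h3 : p i = 2 * X.dim - n := by linarith
      exact Submodule.smul_mem _ _ (h3 ▸ hu₀ i)
    · have h3 : (⟨_, hwN i⟩ : N) = 0 := Subtype.ext (h0 _ _ (hv₀ i) h)
      have h4 : c i j = 0 := by
        simp only [c]
        rw [h3, map_zero, Finsupp.zero_apply]
      rw [h4, zero_smul]
      exact Submodule.zero_mem _
  · intro q hq
    set uu : Fin r → H.A X := fun j => ∑ i, c i j • u₀ i with huu
    -- orthogonality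
    have horth : ∀ i j, (sgn s : K) * sc (uu j * (b i : H.A X)) = if j = i then 1 else 0 := by
      intro i j
      have h3 : ∑ j, ((sgn s : K) * sc (uu j * (b i : H.A X))) • b j = b i := by
        apply Subtype.ext
        rw [AddSubmonoidClass.coe_finsetSum]
        have h4 := hact i
        rw [hclu, act_sum] at h4
        conv_rhs => rw [← h4]
        exact Finset.sum_congr rfl fun j _ => (act_ext_sc hg hs (hb j) (hb i)).symm
      have h4 := congrArg (fun x => b.repr x j) h3
      simp only [map_sum, map_smul, Module.Basis.repr_self, Finsupp.coe_finsetSum,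
        Finset.sum_apply, Finsupp.smul_single, smul_eq_mul, mul_one] at h4
      rw [Finset.sum_eq_single j (fun l _ hl => Finsupp.single_eq_of_ne' hl) (by simp),
        Finsupp.single_eq_same] at h4
      rw [h4, Finsupp.single_apply]
      simp only [eq_comm]
    have h3 := congrArg H.cl (hq X).1
    rw [H.cl_push, H.cl_pull, ev, H.cl_pull, hclu, map_sum, map_sum, map_sum] at h3
    have h4 : ∀ j, H.push (snd X X) (H.pull (fst X X) (H.pull (Obj.lift (𝟙 X) (𝟙 X))
        (H.ext (uu j) (b j : H.A X)))) = (sgn s : K) • (1 : H.A X) := by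
      intro j
      rw [TheoryData.ext, map_mul, ← H.pull_comp, ← H.pull_comp, lift_fst, lift_snd, H.pull_id,
        H.pull_id, sc_spec]
      have h5 := horth j j
      rw [if_pos rfl] at h5
      have h6 : (sgn s : K) * sgn s = 1 := by
        unfold sgn
        split_ifs
        · simp
        · simp
      have h7 : sc (uu j * (b j : H.A X)) = (sgn s : K) := by
        calc sc (uu j * (b j : H.A X)) = (sgn s * sgn s) * sc (uu j * (b j : H.A X)) := by
              rw [h6, one_mul]
          _ = sgn s * (sgn s * sc (uu j * (b j : H.A X))) := by ring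
          _ = sgn s := by rw [h5, mul_one]
      rw [h7]
    rw [Finset.sum_congr rfl fun j _ => h4 j, Finset.sum_const, Finset.card_univ,
      Fintype.card_fin] at h3
    -- comparison
    have h5 : H.cl ((q - sgn s * r) • (1 : C.A X)) = 0 := by
      rw [sub_smul, map_sub, ← h3]
      have h6 : ((sgn s : ℚ) * (r : ℚ)) • (1 : C.A X) = r • (sgn s • (1 : C.A X)) := by
        rw [mul_comm, mul_smul, Nat.cast_smul_eq_nsmul, Int.cast_smul_eq_zsmul]
      rw [h6, map_nsmul, map_zsmul, map_one, Int.cast_smul_eq_zsmul, sub_self]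
    by_contra hne
    have h6 := cl_smul (q - sgn s * r)⁻¹ h5
    rw [smul_smul, inv_mul_cancel₀ (sub_ne_zero.2 hne), one_smul, map_one] at h6
    exact hH.one_ne_zero X h6

end Pool.Agent.K1H14.LD
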