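import Pool.Agent.TH829.Kim.Alg2

/-!
# Maximal idempotents in an ideal of an algebra with a trace
-/

open Polynomial

namespace Pool.Agent.K1H14.LD

open Pool.Agent.TH829.Kim

variable {R : Type*} [Ring R] [Algebra ℚ R] {tr : R →ₗ[ℚ] ℚ} {η : ℚ}

/-- The complete contraction of the (anti)symmetrization of an idempotent. -/
lemma F_idem {ε : R} (hε : ε * ε = ε) (n : ℕ) :
    F tr η n (fun _ => ε) = ∏ j ∈ Finset.range n, (tr ε + η * j) := by
  induction n with
  | zero => simp [F]
  | succ n ih =>
    rw [F_succ]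
    have h1 : ∀ i : Fin n, Function.update (fun _ : Fin n => ε) i (ε * ε) = fun _ => ε := by
      intro i
      rw [hε, Function.update_eq_self_iff]
    simp only [h1, ih]
    rw [Finset.sum_const, Finset.card_univ, Fintype.card_fin, ← Nat.cast_smul_eq_nsmul ℚ,
      Finset.prod_range_succ, smul_eq_mul]
    ring

/-- The rank of an idempotent. -/
lemma exists_rank {p e : R} {b : ℕ} (hK : Killed tr η p b) (he : e * e = e)
    (hpe : p * e = e) : ∃ j ≤ b, tr e = -η * j := by
  have h1 := hK.F_eq (fun _ => e) (fun _ => hpe)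
  rw [F_idem he, Finset.prod_eq_zero_iff] at h1
  obtain ⟨j, hj, h2⟩ := h1
  refine ⟨j, Nat.lt_succ_iff.1 (Finset.mem_range.1 hj), ?_⟩
  linarith

lemma eq_zero_of_tr {p e : R} {b : ℕ} (hη : η ≠ 0) (hK : Killed tr η p b) (he : e * e = e)
    (hpe : p * e = e) (ht : tr e = 0) : e = 0 := by
  have h1 := hK.K_eq (fun _ => e) (fun _ => hpe)
  rw [K_idem _ _ he, ht] at h1
  have h2 : (∏ j ∈ Finset.range b, (0 + η * ((j : ℚ) + 1))) ≠ 0 := by
    rw [Finset.prod_ne_zero_iff]
    intro j _
    rw [zero_add]
    exact mul_ne_zero hη (by positivity)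
  exact (smul_eq_zero_iff_right h2).1 h1

/-- The lemma of Fitting. -/
lemma exists_fitting {y : R} {P : ℚ[X]} (hP : P ≠ 0) (hy : aeval y P = 0)
    (hnil : ¬ IsNilpotent y) : ∃ c : ℚ[X], aeval y (X * c) ≠ 0 ∧
      aeval y (X * c) * aeval y (X * c) = aeval y (X * c) := by
  obtain ⟨q, hq, hnd⟩ := exists_eq_pow_rootMultiplicity_mul_and_not_dvd P hP 0
  set a := rootMultiplicity 0 P with ha
  rw [map_zero, sub_zero] at hq hnd
  have hcop : IsCoprime (X ^ (a + 1) : ℚ[X]) q := by
    apply IsCoprime.pow_left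
    exact (irreducible_X.coprime_iff_not_dvd).2 hnd
  obtain ⟨A, B, hAB⟩ := hcop
  have h0 : aeval y (X ^ (a + 1) * q) = 0 := by
    have e : (X ^ (a + 1) * q : ℚ[X]) = X * P := by rw [hq]; ring
    rw [e, map_mul, hy, mul_zero]
  have e1 : (X * (A * X ^ a) : ℚ[X]) = A * X ^ (a + 1) := by ring
  refine ⟨A * X ^ a, ?_, ?_⟩
  · rw [e1]
    intro h1
    apply hnil
    refine ⟨a + 1, ?_⟩
    have h2 : aeval y (B * q) = 1 := by
      have h3 : aeval y (A * X ^ (a + 1) + B * q) = 1 := by rw [hAB, map_one]
      rw [map_add, h1, zero_add] at h3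
      exact h3
    have h3 : aeval y (X ^ (a + 1) * (B * q)) = 0 := by
      have e : (X ^ (a + 1) * (B * q) : ℚ[X]) = B * (X ^ (a + 1) * q) := by ring
      rw [e, map_mul, h0, mul_zero]
    rw [map_mul, h2, mul_one, map_pow, aeval_X] at h3
    exact h3
  · rw [e1, ← map_mul]
    have e2 : (A * X ^ (a + 1) * (A * X ^ (a + 1)) : ℚ[X]) =
        A * X ^ (a + 1) - A * B * (X ^ (a + 1) * q) := by
      have h4 : A * X ^ (a + 1) = 1 - B * q := by rw [← hAB]; ring
      linear_combination (A * X ^ (a + 1)) * h4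
    rw [e2, map_sub, map_mul (aeval y) (A * B), h0, mul_zero, sub_zero]

lemma aeval_X_mul_mem {J : Submodule ℚ R} {y : R} (hy : ∀ i : ℕ, y ^ (i + 1) ∈ J) (c : ℚ[X]) :
    aeval y (X * c) ∈ J := by
  induction c using Polynomial.induction_on' with
  | add p q hp hq => rw [mul_add, map_add]; exact J.add_mem hp hq
  | monomial n a =>
    have e : aeval y (X * monomial n a) = a • y ^ (n + 1) := by
      rw [← C_mul_X_pow_eq_monomial, map_mul, map_mul, aeval_X, aeval_C, map_pow, aeval_X,
        ← mul_assoc, ← Algebra.commutes, mul_assoc, ← pow_succ', Algebra.smul_def]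
    rw [e]
    exact J.smul_mem a (hy n)

/-- A maximal idempotent of the left ideal `J` of `p R p`. -/
theorem exists_max (hsym : ∀ a b, tr (a * b) = tr (b * a)) (hη : η * η = 1) {p : R}
    (hp : p * p = p) {b : ℕ} (hK : Killed tr η p b) (J : Submodule ℚ R)
    (hJ1 : ∀ x ∈ J, p * x = x) (hJ2 : ∀ x ∈ J, x * p = x)
    (hJ3 : ∀ a, ∀ x ∈ J, p * a * x ∈ J) :
    ∃ e ∈ J, e * e = e ∧ ∀ x ∈ J, tr (x * e) = tr x := by
  have hη0 : η ≠ 0 := by
    rintro rfl
    simp at hη
  have key : ∀ m : ℕ, ∀ e ∈ J, e * e = e → ∀ j ≤ b, tr e = -η * j → b - j = m →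
      ∃ e ∈ J, e * e = e ∧ ∀ x ∈ J, tr (x * e) = tr x := by
    intro m
    induction m using Nat.strong_induction_on with
    | _ m ih =>
      intro e he hee j hj htr hm
      by_cases hall : ∀ x ∈ J, tr (x * e) = tr x
      · exact ⟨e, he, hee, hall⟩
      push Not at hall
      obtain ⟨x, hx, hne⟩ := hall
      have hpe := hJ1 e he
      have hep := hJ2 e he
      -- the element `y = (p - e) x (p - e)`
      set y : R := (p - e) * x * (p - e) with hy
      have hpx := hJ1 x hx
      have hxp := hJ2 x hx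
      have hq : (p - e) * (p - e) = p - e := by
        rw [mul_sub, sub_mul, sub_mul, hp, hpe, hep, hee]
        abel
      have hyJ : y ∈ J := by
        have h1 : (p - e) * x ∈ J := by
          have : p * (p - e) * x ∈ J := hJ3 _ _ hx
          rwa [mul_sub p, hp, hpe] at this
        have h2 : y = (p - e) * x - p * ((p - e) * x) * e := by
          rw [hJ1 _ h1, hy, mul_sub, mul_assoc, hxp]
        rw [h2]
        exact J.sub_mem h1 (hJ3 _ _ he)
      have hpy := hJ1 y hyJ
      have hyp := hJ2 y hyJ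
      have hey : e * y = 0 := by
        have h0 : e * (p - e) = 0 := by rw [mul_sub, hep, hee, sub_self]
        rw [hy, ← mul_assoc, ← mul_assoc, h0, zero_mul, zero_mul]
      have hye : y * e = 0 := by
        have h0 : (p - e) * e = 0 := by rw [sub_mul, hpe, hee, sub_self]
        rw [hy, mul_assoc, h0, mul_zero]
      have htry : tr y ≠ 0 := by
        have h1 : tr y = tr x - tr (x * e) := by
          rw [hy, mul_assoc, hsym, mul_assoc, hq, mul_sub, hxp, map_sub]
        rw [h1]
        intro h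
        exact hne (by linarith)
      have hpow : ∀ i : ℕ, y ^ (i + 1) ∈ J := by
        intro i
        induction i with
        | zero => rwa [zero_add, pow_one]
        | succ i ih' =>
          have := hJ3 y _ ih'
          rwa [hpy, ← pow_succ'] at this
      have hnil : ¬ IsNilpotent y := by
        intro h
        apply htry
        have h1 := tr_eq_zero_of_isNilpotent tr η h (n := b) (fun k hk => by
          apply hK.F_eq
          intro _
          obtain ⟨i, rfl⟩ := Nat.exists_eq_add_of_le' hk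
          exact hJ1 _ (hpow i)) 1 le_rfl
        rwa [pow_one] at h1
      -- an annihilating polynomial
      obtain ⟨q, hq1, hq2⟩ := K_eq_poly tr η y b (fun _ => 1) (fun _ => le_rfl)
      have hsum : ∑ _i : Fin (b + 1), 1 = b + 1 := by simp
      rw [hsum] at hq1 hq2
      have h3 := hK.K_eq (fun _ => y ^ 1) (fun _ => by rw [pow_one]; exact hpy)
      rw [hq2] at h3
      have hc : (η ^ b * (b.factorial : ℚ)) ≠ 0 :=
        mul_ne_zero (pow_ne_zero _ hη0) (by positivity)
      set P : ℚ[X] := C (η ^ b * (b.factorial : ℚ)) * X ^ (b + 1) + q with hPdef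
      have hP0 : P ≠ 0 := by
        intro h
        have h4 : P.coeff (b + 1) = η ^ b * (b.factorial : ℚ) := by
          rw [hPdef, coeff_add, coeff_C_mul, coeff_X_pow_self, mul_one,
            coeff_eq_zero_of_degree_lt hq1, add_zero]
        rw [h, coeff_zero] at h4
        exact hc h4.symm
      have hPy : aeval y P = 0 := by
        rw [hPdef, map_add, map_mul, aeval_C, map_pow, aeval_X, ← Algebra.smul_def]
        exact h3
      obtain ⟨c, hc1, hc2⟩ := exists_fitting hP0 hPy hnil
      set e₁ := aeval y (X * c) with he₁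
      have he₁J : e₁ ∈ J := aeval_X_mul_mem hpow c
      have he₁y : e₁ = y * aeval y c := by rw [he₁, map_mul, aeval_X]
      have he₁y' : e₁ = aeval y c * y := by
        rw [he₁, mul_comm X c, map_mul, aeval_X]
      have hee₁ : e * e₁ = 0 := by rw [he₁y, ← mul_assoc, hey, zero_mul]
      have he₁e : e₁ * e = 0 := by rw [he₁y', mul_assoc, hye, mul_zero]
      obtain ⟨j₁, hj₁, hj₁'⟩ := exists_rank hK hc2 (hJ1 _ he₁J)
      have hj₁0 : j₁ ≠ 0 := by
        rintro rfl
        apply hc1
        apply eq_zero_of_tr hη0 hK hc2 (hJ1 _ he₁J)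
        rw [hj₁', Nat.cast_zero, mul_zero]
      have hidem : (e + e₁) * (e + e₁) = e + e₁ := by
        rw [mul_add, add_mul, add_mul, hee, hc2, hee₁, he₁e]
        abel
      have hmem := J.add_mem he he₁J
      obtain ⟨j', hj', hj''⟩ := exists_rank hK hidem (hJ1 _ hmem)
      have hjj : j' = j + j₁ := by
        have h5 : -η * (j' : ℚ) = -η * ((j + j₁ : ℕ) : ℚ) := by
          rw [← hj'', map_add, htr, hj₁']
          push_cast
          ring
        exact_mod_cast mul_left_cancel₀ (neg_ne_zero.2 hη0) h5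
      exact ih (b - j') (by omega) (e + e₁) hmem hidem j' hj' hj'' rfl
  exact key b 0 J.zero_mem (by rw [mul_zero]) 0 (Nat.zero_le _) (by simp) (by simp)

end Pool.Agent.K1H14.LD
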