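import Pool.Agent.K1H14.LD.Main

/-!
# The rank criterion: main theorem
-/

open CategoryTheory AlgebraicGeometry

universe u v w

namespace Pool.Agent.K1H14.LD

open Pool.Agent.H914 Pool.Agent.H914.VarClass Pool.Agent.H914.VarClass.Obj Pool.Agent.W492.BB
  Pool.Agent.W550.Corr Pool.Agent.TH133 Pool.Agent.TH829.Prime Pool.Agent.TH829.Kim
  Pool.Agent.Y110

set_option linter.unusedSectionVars false

variable {k : Type u} [Field k] {𝒱 : VarClass k} {C : TheoryData.{u, v, 0} 𝒱 ℚ}
  [hC : IsChowProj C] {K : Type w} [Field K]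
  {H : WeilTheoryData.{u, v, w} C K} [hH : IsWeilProj H] {X Y Z W P : 𝒱.Obj}

include hC hH

section

variable {n : ℕ} {π : C.A (X.prod X)} (hπ : IsKunneth H X n π) {c : ℤ} {f₀ : C.A (X.prod X)}

include hπ

lemma act_pf (g : C.A (X.prod X)) {a : H.A X} (ha : a ∈ H.gr X n) :
    H.act (H.cl (C.comp (C.comp π f₀) g)) a = H.act (H.cl (C.comp f₀ g)) a := by
  rw [actH_comp, actH_comp, act_pi hπ ha, if_pos rfl, actH_comp]

lemma act_pf_ne (g : C.A (X.prod X)) (l : ℤ) (a : H.A X) (ha : a ∈ H.gr X l) (hl : l ≠ n) :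
    H.act (H.cl (C.comp (C.comp π f₀) g)) a = 0 := by
  rw [actH_comp, actH_comp, act_pi hπ ha, if_neg hl, TheoryData.act_map_zero,
    TheoryData.act_map_zero]

lemma cl_pi_pi : H.cl (C.comp π π) = H.cl π := by
  refine cl_eq_of fun l a ha => ?_
  rw [actH_comp, act_pi hπ ha]
  by_cases hl : l = n
  · rw [if_pos hl, act_pi hπ ha, if_pos hl]
  · rw [if_neg hl, TheoryData.act_map_zero]

lemma map_pf (g : C.A (X.prod X)) : (H.gr X n).map (H.actL (H.cl (C.comp (C.comp π f₀) g))) =
    (H.gr X n).map (H.actL (H.cl (C.comp f₀ g))) := by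
  apply le_antisymm
  · rintro _ ⟨a, ha, rfl⟩
    exact ⟨a, ha, (act_pf hπ g ha).symm⟩
  · rintro _ ⟨a, ha, rfl⟩
    exact ⟨a, ha, act_pf hπ g ha⟩

end

/-- **The rank criterion.** -/
theorem rank_criterion (hg : GradedCommutative H) {n : ℕ} {π : C.A (X.prod X)}
    (hπ : IsKunneth H X n π) {c : ℤ} {f₀ : C.A (X.prod X)} (hf₀ : f₀ ∈ C.gr (X.prod X) c) (m : ℕ) :
    (¬ NumTrivial C (((m + 1 : ℕ) : ℤ) * c) (detCycle C n m (C.comp π f₀))) ↔
      ∃ g ∈ C.gr (X.prod X) (2 * X.dim - c),
        (∀ a ∈ H.gr X n, H.act (H.cl (C.comp f₀ g)) (H.act (H.cl (C.comp f₀ g)) a) =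
          H.act (H.cl (C.comp f₀ g)) a) ∧
        m + 1 ≤ Module.finrank K ((H.gr X n).map (H.actL (H.cl (C.comp f₀ g)))) := by
  have hs := par_par n
  have hπd : π ∈ C.gr (X.prod X) X.dim := hπ.1
  obtain ⟨f, hf⟩ : ∃ f, f = C.comp π f₀ := ⟨_, rfl⟩
  rw [← hf]
  have hfc : f ∈ C.gr (X.prod X) c := by
    rw [hf]
    exact comp_gr hπd hf₀ (by ring)
  have hdeg : ∀ {g : C.A (X.prod X)}, g ∈ C.gr (X.prod X) (2 * X.dim - c) →
      C.comp f g ∈ C.gr (X.prod X) X.dim := fun hg => comp_gr hfc hg (by ring)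
  have hdeg₀ : ∀ {g : C.A (X.prod X)}, g ∈ C.gr (X.prod X) (2 * X.dim - c) →
      C.comp f₀ g ∈ C.gr (X.prod X) X.dim := fun hg => comp_gr hf₀ hg (by ring)
  have hstab : ∀ {γ : C.A (X.prod X)}, γ ∈ C.gr (X.prod X) X.dim → ∀ a ∈ H.gr X n,
      H.act (H.cl γ) a ∈ H.gr X n := by
    intro γ hγ a ha
    have h4 := actH_mem (H := H) (e := 0) (Γ := γ) (by rwa [add_zero]) ha
    rwa [mul_zero, add_zero] at h4
  rw [van_iff hfc]
  constructor
  · intro hnot
    have hne : ∀ X : 𝒱.Obj, (1 : C.A X) ≠ 0 := one_ne H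
    have hP := isAdequate_homFam H
    have hle := homFam_le H
    have hN := isAdequate_numFam (C := C) hne
    set p : RP (homFam H) hP X := mk _ hP X (ofA π hπd) with hp
    have hpp : p * p = p := by
      rw [hp, ← map_mul, ← sub_eq_zero, ← map_sub, mk_eq_zero, map_sub, toA_mul, toA_ofA]
      refine ⟨Submodule.sub_mem _ (comp_mem0 C hπd hπd) hπd, ?_⟩
      rw [map_sub, cl_pi_pi hπ, sub_self]
    -- the exterior powers of `h^n(X)`
    have hK : Killed (trP hne (homFam H) hP hle X) (eta (par n)) p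
        (Module.finrank K ((H.gr X n).map (H.actL (H.cl π)))) := by
      apply Dies.killed (one_notMem_homFam H)
      refine van_of_rank hg hs hπd ?_ ?_ (Nat.lt_succ_self _)
      · intro l a ha hl
        rw [act_pi hπ ha, if_neg hl]
      · intro a ha
        rw [act_pi hπ ha, if_pos rfl, act_pi hπ ha, if_pos rfl]
    -- the left ideal
    have hxp : ∀ (y : R0 C X) (g : C.A (X.prod X)), toA y = C.comp f g →
        mk _ hP X y * p = mk _ hP X y := by
      intro y g hy
      rw [hp, ← map_mul, ← sub_eq_zero, ← map_sub, mk_eq_zero, map_sub, toA_mul, toA_ofA]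
      refine ⟨Submodule.sub_mem _ (comp_mem0 C hπd (toA_mem y)) (toA_mem y), ?_⟩
      rw [map_sub, sub_eq_zero, hy, hf, ← comp_assoc, ← comp_assoc, cl_comp, cl_comp, cl_pi_pi hπ,
        ← cl_comp, ← cl_comp]
    let J : Submodule ℚ (RP (homFam H) hP X) :=
      { carrier := {x | (∃ y : R0 C X, mk _ hP X y = x ∧ ∃ g ∈ C.gr (X.prod X) (2 * X.dim - c),
          toA y = C.comp f g) ∧ p * x = x}
        zero_mem' := ⟨⟨0, map_zero _, 0, Submodule.zero_mem _, by rw [map_zero, comp_zero]⟩,
          mul_zero _⟩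
        add_mem' := by
          rintro _ _ ⟨⟨y, rfl, g, hg, hy⟩, h1⟩ ⟨⟨y', rfl, g', hg', hy'⟩, h1'⟩
          exact ⟨⟨y + y', map_add _ _ _, g + g', Submodule.add_mem _ hg hg', by
            rw [map_add, hy, hy', comp_add]⟩, by rw [mul_add, h1, h1']⟩
        smul_mem' := by
          rintro q _ ⟨⟨y, rfl, g, hg, hy⟩, h1⟩
          exact ⟨⟨q • y, mk_smul q y, q • g, Submodule.smul_mem _ q hg, by
            rw [map_smul, hy]
            exact (map_smul (compL C f) q g).symm⟩, by rw [mul_smul_comm, h1]⟩ }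
    have hmul : ∀ (a : R0 C X) (y : R0 C X) (g : C.A (X.prod X)),
        g ∈ C.gr (X.prod X) (2 * X.dim - c) → toA y = C.comp f g →
          p * (mk _ hP X a * mk _ hP X y) ∈ J := by
      intro a y g hg hy
      refine ⟨⟨ofA π hπd * (a * y), by rw [map_mul, map_mul], C.comp (C.comp g (toA a)) π, ?_, ?_⟩,
        by rw [← mul_assoc, hpp]⟩
      · exact comp_gr (comp_gr hg (toA_mem a) rfl) hπd rfl
      · rw [toA_mul, toA_mul, toA_ofA, hy, comp_assoc, comp_assoc, comp_assoc]
    obtain ⟨e, ⟨⟨y, rfl, g₀, hg₀, hy⟩, hpe⟩, hee, hall⟩ :=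
      exists_max (R := RP (homFam H) hP X) (tr := trP hne (homFam H) hP hle X)
        (trP_comm (hP := hP) (hle := hle)) (by unfold eta; split_ifs <;> norm_num) hpp hK J
        (fun x hx => hx.2)
        (by rintro _ ⟨⟨y, rfl, g, hg, hy⟩, -⟩; exact hxp y g hy)
        (by
          rintro a _ ⟨⟨y, rfl, g, hg, hy⟩, -⟩
          obtain ⟨a, rfl⟩ := Ideal.Quotient.mk_surjective a
          have := hmul a y g hg hy
          rwa [← mul_assoc] at this)
    set ε : C.A (X.prod X) := toA y with hε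
    have hidem : H.cl (C.comp ε ε) = H.cl ε := by
      rw [← map_mul, ← sub_eq_zero, ← map_sub, mk_eq_zero, map_sub, toA_mul] at hee
      have := hee.2
      rwa [map_sub, sub_eq_zero] at this
    have hεd : ε ∈ C.gr (X.prod X) X.dim := toA_mem y
    have hε0 : ∀ (l : ℤ) (a : H.A X), a ∈ H.gr X l → l ≠ n → H.act (H.cl ε) a = 0 := by
      intro l a ha hl
      rw [hy, hf]
      exact act_pf_ne hπ g₀ l a ha hl
    have hε1 : ∀ a ∈ H.gr X n, H.act (H.cl ε) (H.act (H.cl ε) a) = H.act (H.cl ε) a := by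
      intro a _
      rw [← actH_comp, hidem]
    refine ⟨g₀, hg₀, ?_, ?_⟩
    · intro a ha
      have h1 := hε1 a ha
      rw [hy, hf, act_pf hπ g₀ ha, act_pf hπ g₀ (hstab (hdeg₀ hg₀) a ha)] at h1
      exact h1
    · by_contra hlt
      apply hnot
      have hlt' : Module.finrank K ((H.gr X n).map (H.actL (H.cl ε))) < m + 1 := by
        rw [hy, hf, map_pf hπ]
        exact not_le.1 hlt
      have h1 := Van.cols' hP (van_of_rank hg hs hεd hε0 hε1 hlt') hfc
      have e1 : ((m + 1 : ℕ) : ℤ) * X.dim + (Fintype.card (Fin (m + 1)) : ℤ) * (c - X.dim) =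
          ((m + 1 : ℕ) : ℤ) * c := by
        rw [Fintype.card_fin]
        ring
      rw [e1] at h1
      -- `f` is numerically equivalent to `f ∘ ε`
      have h2 : f - C.comp ε f ∈ numFam C (X.prod X) c := by
        refine ⟨Submodule.sub_mem _ hfc (comp_gr hεd hfc (by ring)), ?_⟩
        intro b hb
        have hb' : b ∈ C.gr (X.prod X) (2 * X.dim - c) := by
          have e2 : ((X.prod X).dim : ℤ) - c = 2 * X.dim - c := by
            rw [dim_prod]; push_cast; ring
          rwa [← e2]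
        have hg' : tp C b ∈ C.gr (X.prod X) (2 * X.dim - c) := tp_mem C hb'
        have h3 := deg_pair hne hfc hg' (by ring)
          (trL_spec (hne := hne) (ofA (C.comp f (tp C b)) (hdeg hg')))
        have h4 : toA (ofA (C.comp f (tp C b)) (hdeg hg') * y) =
            C.comp (C.comp ε f) (tp C b) := by
          rw [toA_mul, toA_ofA, comp_assoc]
        have h5 := trL_spec (hne := hne) (ofA (C.comp f (tp C b)) (hdeg hg') * y)
        rw [h4] at h5
        have h6 := deg_pair hne (comp_gr (r := c) hεd hfc (by ring)) hg' (by ring) h5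
        rw [tp_tp] at h3 h6
        -- equality of the traces
        have h7 : trL hne X (ofA (C.comp f (tp C b)) (hdeg hg')) =
            trL hne X (ofA (C.comp f (tp C b)) (hdeg hg') * y) := by
          set x : R0 C X := ofA (C.comp f (tp C b)) (hdeg hg') with hx
          have hxp' := hxp x (tp C b) rfl
          have hxJ : p * mk _ hP X x ∈ J := by
            have := hmul 1 x (tp C b) hg' rfl
            rwa [map_one, one_mul] at this
          have hep := hxp y g₀ hy
          rw [← trP_mk (hP := hP) (hle := hle), ← trP_mk (hP := hP) (hle := hle), map_mul]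
          calc trP hne _ hP hle X (mk _ hP X x)
              = trP hne _ hP hle X (mk _ hP X x * p) := by rw [hxp']
            _ = trP hne _ hP hle X (p * mk _ hP X x) := trP_comm _ _
            _ = trP hne _ hP hle X (p * mk _ hP X x * mk _ hP X y) := (hall _ hxJ).symm
            _ = trP hne _ hP hle X (p * (mk _ hP X x * mk _ hP X y)) := by rw [mul_assoc]
            _ = trP hne _ hP hle X (mk _ hP X x * mk _ hP X y * p) := trP_comm _ _
            _ = trP hne _ hP hle X (mk _ hP X x * mk _ hP X y) := by rw [mul_assoc, hep]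
        rw [h7] at h3
        have h8 := HasDegree.add h3 (HasDegree.smul (-1) h6)
        rw [neg_one_mul, add_neg_cancel, neg_one_smul, ← sub_eq_add_neg, ← sub_mul] at h8
        exact h8
      intro W x' y'
      have h9 := gd_sub_mem hN (s := par n) hfc (comp_gr (r := c) hεd hfc (by ring)) h2 x' y'
      rw [Fintype.card_fin] at h9
      have h10 := Submodule.add_mem _ h9 (hle _ _ (h1 W x' y'))
      rwa [sub_add_cancel] at h10
  · rintro ⟨g, hg₁, h1, h2⟩ hvan
    have hne : ∀ X : 𝒱.Obj, (1 : C.A X) ≠ 0 := one_ne H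
    have hN := isAdequate_numFam (C := C) hne
    have h3 := Van.cols' hN hvan hg₁
    have e1 : ((m + 1 : ℕ) : ℤ) * c +
        (Fintype.card (Fin (m + 1)) : ℤ) * (2 * X.dim - c - X.dim) =
          ((m + 1 : ℕ) : ℤ) * X.dim := by
      rw [Fintype.card_fin]
      ring
    rw [e1] at h3
    refine not_van_of_rank hg hs (hdeg hg₁) (by rw [hf]; exact act_pf_ne hπ g) ?_ (hstab (hdeg hg₁)) ?_ h3
    · intro a ha
      have h4 := hstab (hdeg₀ hg₁) a ha
      rw [hf, act_pf hπ g ha, act_pf hπ g h4]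
      exact h1 a ha
    · rw [hf, map_pf hπ]
      exact h2

end Pool.Agent.K1H14.LD
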