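import Pool.Agent.TH829.Kim.Defs
import Pool.Agent.W492.BB.Calc
import Pool.Agent.Y110.Gc

/-!
# The determinant cycle of a correspondence and the Lefschetz standard conjecture: definitions
-/

open CategoryTheory AlgebraicGeometry

universe u v w

namespace Pool.Agent.K1H14.LD

open Pool.Agent.H914 Pool.Agent.H914.VarClass Pool.Agent.H914.VarClass.Obj Pool.Agent.W492.BB
  Pool.Agent.W550.Corr Pool.Agent.TH133 Pool.Agent.TH829.Prime Pool.Agent.TH829.Kim

variable {k : Type u} [Field k] {𝒱 : VarClass k}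

/-- The coordinates of the power `X^(m+1) = X × (X × ⋯ × X)`. -/
noncomputable def coord (X : 𝒱.Obj) : ∀ m : ℕ, Fin (m + 1) → (powObj X m ⟶ X)
  | 0 => fun _ => 𝟙 X
  | m + 1 => Fin.cons (fst X (powObj X m)) (fun i => snd X (powObj X m) ≫ coord X m i)

/-- Let `b = m + 1`. The cycle `∑_σ sign(σ) f(x_1, y_{σ 1}) ⋯ f(x_b, y_{σ b})` on `X^b × X^b` for
even `n`, and `∑_σ f(x_1, y_{σ 1}) ⋯ f(x_b, y_{σ b})` for odd `n`, where `x_i` and `y_j` are the
`2b` coordinates, and `f(x_i, y_j)` is the pull-back of `f` under the projection `(x_i, y_j)` to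
`X × X`. -/
noncomputable def detCycle (C : TheoryData.{u, v, 0} 𝒱 ℚ) {X : 𝒱.Obj} (n m : ℕ)
    (f : C.A (X.prod X)) : C.A ((powObj X m).prod (powObj X m)) :=
  if Even n then altPower C f (fun i => fst (powObj X m) (powObj X m) ≫ coord X m i)
    (fun i => snd (powObj X m) (powObj X m) ≫ coord X m i)
  else symPower C f (fun i => fst (powObj X m) (powObj X m) ≫ coord X m i)
    (fun i => snd (powObj X m) (powObj X m) ≫ coord X m i)

/-- The class `D^(dim X - n)`. -/
noncomputable def lefPow (C : TheoryData.{u, v, 0} 𝒱 ℚ) {X : 𝒱.Obj} (D : C.A X) (n : ℕ) : C.A X :=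
  D ^ (X.dim - n)

/-- The correspondence `f ∈ CH^(2 dim X - n)(X × X)`: the self-correspondence `π` of `X`, followed
by the cup product with `D^(dim X - n)`. -/
noncomputable def lefCorr (C : TheoryData.{u, v, 0} 𝒱 ℚ) {X : 𝒱.Obj} (D : C.A X) (n : ℕ)
    (π : C.A (X.prod X)) : C.A (X.prod X) :=
  C.comp π (C.mulCorr (lefPow C D n))

/-- The determinant cycle with `r = m + 1` rows of the correspondence `lefCorr C D n π` is
numerically trivial. It is a cycle of codimension `r (2 dim X - n)` on `X^r × X^r`. -/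
def DetTrivial (C : TheoryData.{u, v, 0} 𝒱 ℚ) {X : 𝒱.Obj} (D : C.A X) (n : ℕ)
    (π : C.A (X.prod X)) (m : ℕ) : Prop :=
  NumTrivial C (((m + 1 : ℕ) : ℤ) * (2 * X.dim - n)) (detCycle C n m (lefCorr C D n π))

variable {C : TheoryData.{u, v, 0} 𝒱 ℚ} {K : Type w} [Field K] (H : WeilTheoryData.{u, v, w} C K)

/-- `π ∈ CH^(dim X)(X × X)` acts as the identity on `H^n(X)` and as zero on `H^l(X)` for `l ≠ n`
(so `H^n(X)` is the realization of the homological motive `h^n(X) = (X, π)`). -/
def IsKunneth (X : 𝒱.Obj) (n : ℕ) (π : C.A (X.prod X)) : Prop :=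
  C.Deg X.dim π ∧ ∀ (l : ℤ) (a : H.A X), H.Deg l a →
    H.act (H.cl π) a = if l = n then a else 0

/-- The cup product `a ↦ z a` with the class of the cycle `z` on `X`. -/
noncomputable def cup {X : 𝒱.Obj} (z : C.A X) (a : H.A X) : H.A X := H.mul (H.cl z) a

/-- The action `a ↦ g_* a` of the self-correspondence `g` of `X`. -/
noncomputable def corr {X : 𝒱.Obj} (g : C.A (X.prod X)) (a : H.A X) : H.A X := H.act (H.cl g) a

/-- The map `a ↦ g_* (z a)` on `H(X)`: the cup product with the class of the cycle `z` on `X`,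
followed by the self-correspondence `g` of `X`. -/
noncomputable def cupThen {X : 𝒱.Obj} (z : C.A X) (g : C.A (X.prod X)) (a : H.A X) : H.A X :=
  corr H g (cup H z a)

/-- `T` acts on `H^n(X)` as an idempotent: `T (T a) = T a` for `a ∈ H^n(X)`. -/
def IsIdemOn {X : 𝒱.Obj} (n : ℕ) (T : H.A X → H.A X) : Prop :=
  ∀ a : H.A X, H.Deg n a → T (T a) = T a

/-- The subspace spanned by the elements `T a`, `a ∈ H^n(X)`. -/
def imageOn {X : 𝒱.Obj} (n : ℕ) (T : H.A X → H.A X) : Submodule K (H.A X) :=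
  Submodule.span K {b | ∃ a, H.Deg n a ∧ b = T a}

/-- The rank of `T` on `H^n(X)`: the dimension of the span of the elements `T a`,
`a ∈ H^n(X)`. -/
noncomputable def rankOn {X : 𝒱.Obj} (n : ℕ) (T : H.A X → H.A X) : ℕ :=
  Module.finrank K (imageOn H n T)

/-- There is a cycle `g ∈ CH^n(X × X)` such that the map `a ↦ g_* (D^(dim X - n) a)` is an
idempotent endomorphism of `H^n(X)` of rank at least `r`. -/
def HasSplitRank (X : 𝒱.Obj) (D : C.A X) (n r : ℕ) : Prop :=
  ∃ g : C.A (X.prod X), C.Deg n g ∧ IsIdemOn H n (cupThen H (lefPow C D n) g) ∧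
    r ≤ rankOn H n (cupThen H (lefPow C D n) g)

/-- Hard Lefschetz in degree `n`: the cup product with `D^(dim X - n)` is a bijection
`H^n(X) → H^(2 dim X - n)(X)`. -/
def HardLefschetz (X : 𝒱.Obj) (D : C.A X) (n : ℕ) : Prop :=
  (∀ a : H.A X, H.Deg n a → cup H (lefPow C D n) a = 0 → a = 0) ∧
  ∀ b : H.A X, H.Deg (2 * X.dim - n) b → ∃ a, H.Deg n a ∧ cup H (lefPow C D n) a = b

/-- The standard conjecture of Lefschetz type in degree `n`, that is, part (a) of the question: the
cup product with `D^(dim X - n)` is an isomorphism of homological motives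
`h^n(X) → h^(2 dim X - n)(X)(dim X - n)`, that is, there is a cycle `g ∈ CH^n(X × X)` whose action
`H^(2 dim X - n)(X) → H^n(X)` is inverse to it. -/
def LefschetzIn (X : 𝒱.Obj) (D : C.A X) (n : ℕ) : Prop :=
  ∃ g : C.A (X.prod X), C.Deg n g ∧
    (∀ a : H.A X, H.Deg n a → corr H g (cup H (lefPow C D n) a) = a) ∧
    ∀ b : H.A X, H.Deg (2 * X.dim - n) b → cup H (lefPow C D n) (corr H g b) = b

end Pool.Agent.K1H14.LD
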