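import Pool.Agent.K1H14.LD.Crit

/-!
# The Lefschetz standard conjecture and the determinant cycle
-/

open CategoryTheory AlgebraicGeometry

universe u v w

namespace Pool.Agent.K1H14.LD

open Pool.Agent.H914 Pool.Agent.H914.VarClass Pool.Agent.H914.VarClass.Obj Pool.Agent.W492.BB
  Pool.Agent.W550.Corr Pool.Agent.TH133 Pool.Agent.TH829.Prime Pool.Agent.TH829.Kim
  Pool.Agent.Y110

set_option linter.unusedSectionVars false

variable {k : Type u} [Field k] {𝒱 : VarClass k} {C : TheoryData.{u, v, 0} 𝒱 ℚ}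
  [hC : IsChowProj C] {K : Type w} [Field K]
  {H : WeilTheoryData.{u, v, w} C K} [hH : IsWeilProj H] {X : 𝒱.Obj}

include hC

lemma mulCorr_mem {z : C.A X} {j : ℤ} (hz : z ∈ C.gr X j) :
    C.mulCorr z ∈ C.gr (X.prod X) (X.dim + j) := by
  have h := C.push_mem (Obj.lift (𝟙 X) (𝟙 X)) hz
  have e : j + 1 * (((X.prod X).dim : ℤ) - X.dim) = X.dim + j := by
    rw [dim_prod]; push_cast; ring
  rwa [e] at h

lemma pow_mem' {D : C.A X} (hD : C.Deg 1 D) (j : ℕ) : D ^ j ∈ C.gr X j := by
  induction j with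
  | zero => rw [pow_zero]; exact C.one_mem X
  | succ j ih =>
    rw [pow_succ]
    have := C.mul_mem ih hD
    push_cast
    exact this

include hH

lemma act_cup (z : C.A X) (a : H.A X) : H.act (H.cl (C.mulCorr z)) a = cup H z a := by
  rw [TheoryData.mulCorr, H.cl_push]
  exact H.act_mulCorr _ _

lemma act_cupThen (z : C.A X) (g : C.A (X.prod X)) (a : H.A X) :
    H.act (H.cl (C.comp (C.mulCorr z) g)) a = cupThen H z g a := by
  rw [actH_comp, act_cup]
  rfl

lemma imageOn_cupThen (n : ℕ) (z : C.A X) (g : C.A (X.prod X)) :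
    imageOn H n (cupThen H z g) = (H.gr X n).map (H.actL (H.cl (C.comp (C.mulCorr z) g))) := by
  apply le_antisymm
  · refine Submodule.span_le.2 ?_
    rintro _ ⟨a, ha, rfl⟩
    exact ⟨a, ha, act_cupThen z g a⟩
  · rintro _ ⟨a, ha, rfl⟩
    exact Submodule.subset_span ⟨a, ha, act_cupThen z g a⟩

/-- The dimension of the cohomology from the trace of the projector. -/
lemma finrank_of_degree (hg : GradedCommutative H) {n m : ℕ} {π : C.A (X.prod X)}
    (hπ : IsKunneth H X n π)
    (hm : HasDegree C (C.up (Obj.lift (𝟙 X) (𝟙 X)) π) ((-1) ^ n * (m + 1 : ℕ))) :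
    Module.finrank K (H.gr X n) = m + 1 := by
  have hπd : π ∈ C.gr (X.prod X) X.dim := hπ.1
  have hmap : (H.gr X n).map (H.actL (H.cl π)) = H.gr X n := by
    apply le_antisymm
    · rintro _ ⟨a, ha, rfl⟩
      rw [TheoryData.actL_apply, act_pi hπ ha, if_pos rfl]
      exact ha
    · intro a ha
      refine ⟨a, ha, ?_⟩
      rw [TheoryData.actL_apply, act_pi hπ ha, if_pos rfl]
  obtain ⟨u, v, hu, hv, huv, htr⟩ := rank_data hg (par_par n) hπd
    (fun l a ha hl => by rw [act_pi hπ ha, if_neg hl])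
    (fun a ha => by rw [act_pi hπ ha, if_pos rfl, act_pi hπ ha, if_pos rfl]) rfl
  have h1 := htr _ hm
  rw [hmap] at h1
  have hsgn : (sgn (par n) : ℚ) = (-1) ^ n := by
    unfold sgn par
    rcases Nat.even_or_odd n with h | h
    · simp [h]
    · have h2 : ¬ Even n := Nat.not_even_iff_odd.2 h
      simp [h2, h.neg_one_pow]
  rw [hsgn] at h1
  have h2 := mul_left_cancel₀ (pow_ne_zero n (by norm_num : (-1 : ℚ) ≠ 0)) h1
  exact_mod_cast h2.symm

/-- The rank criterion for the Lefschetz operator. -/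
theorem lefschetz_rank (hg : GradedCommutative H) {D : C.A X} (hD : C.Deg 1 D) {n : ℕ}
    (hn : n ≤ X.dim) {π : C.A (X.prod X)} (hπ : IsKunneth H X n π) (m : ℕ) :
    ¬ DetTrivial C D n π m ↔ HasSplitRank H X D n (m + 1) := by
  have hf : C.mulCorr (lefPow C D n) ∈ C.gr (X.prod X) (2 * X.dim - n) := by
    have h := mulCorr_mem (pow_mem' hD (X.dim - n))
    have e : (X.dim : ℤ) + ((X.dim - n : ℕ) : ℤ) = 2 * X.dim - n := by
      rw [Nat.cast_sub hn]; ring
    rwa [e] at h
  unfold DetTrivial HasSplitRank lefCorr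
  rw [rank_criterion hg hπ hf m]
  have e : (2 * (X.dim : ℤ) - (2 * X.dim - n)) = n := by ring
  rw [e]
  constructor
  · rintro ⟨g, h1, h2, h3⟩
    refine ⟨g, h1, fun a ha => ?_, ?_⟩
    · have := h2 a ha
      simp only [act_cupThen] at this
      exact this
    · rwa [rankOn, imageOn_cupThen]
  · rintro ⟨g, h1, h2, h3⟩
    refine ⟨g, h1, fun a ha => ?_, ?_⟩
    · simp only [act_cupThen]
      exact h2 a ha
    · rwa [rankOn, imageOn_cupThen] at h3

/-- The determinant criterion. -/
theorem lefschetz_det (hg : GradedCommutative H) {D : C.A X} (hD : C.Deg 1 D) {n : ℕ}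
    (hn : n ≤ X.dim) {π : C.A (X.prod X)} (hπ : IsKunneth H X n π) {m : ℕ}
    (hm : Module.finrank K (H.gr X n) = m + 1) (hL : HardLefschetz H X D n) :
    LefschetzIn H X D n ↔ ¬ DetTrivial C D n π m := by
  rw [lefschetz_rank hg hD hn hπ m]
  constructor
  · rintro ⟨g, hgd, h1, -⟩
    have h2 : ∀ a : H.A X, H.Deg n a → cupThen H (lefPow C D n) g a = a := h1
    refine ⟨g, hgd, fun a ha => by rw [h2 a ha, h2 a ha], ?_⟩
    have h3 : imageOn H n (cupThen H (lefPow C D n) g) = H.gr X n := by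
      apply le_antisymm
      · refine Submodule.span_le.2 ?_
        rintro _ ⟨a, ha, rfl⟩
        rw [h2 a ha]
        exact ha
      · intro a ha
        exact Submodule.subset_span ⟨a, ha, (h2 a ha).symm⟩
    rw [rankOn, h3, hm]
  · rintro ⟨g, hgd, h1, h2⟩
    have hfin : Module.Finite K (H.gr X n) := Module.finite_of_finrank_pos (by rw [hm]; omega)
    have hstab : imageOn H n (cupThen H (lefPow C D n) g) ≤ H.gr X n := by
      refine Submodule.span_le.2 ?_
      rintro _ ⟨a, ha, rfl⟩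
      have h3 : C.mulCorr (lefPow C D n) ∈ C.gr (X.prod X) (X.dim + (X.dim - n : ℕ)) :=
        mulCorr_mem (pow_mem' hD _)
      have h4 : C.comp (C.mulCorr (lefPow C D n)) g ∈ C.gr (X.prod X) X.dim := by
        refine comp_gr h3 hgd ?_
        rw [Nat.cast_sub hn]
        ring
      have h5 := actH_mem (H := H) (e := 0) (by rwa [add_zero]) ha
      rwa [mul_zero, add_zero, act_cupThen] at h5
    have heq : imageOn H n (cupThen H (lefPow C D n) g) = H.gr X n :=
      Submodule.eq_of_le_of_finrank_le hstab (by rw [hm]; exact h2)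
    have hid : ∀ a : H.A X, H.Deg n a → cupThen H (lefPow C D n) g a = a := by
      intro a ha
      have ha' : a ∈ H.gr X n := ha
      rw [← heq, imageOn_cupThen] at ha'
      obtain ⟨a', h3, rfl⟩ := ha'
      rw [TheoryData.actL_apply, act_cupThen]
      exact h1 a' h3
    refine ⟨g, hgd, hid, fun b hb => ?_⟩
    obtain ⟨a, ha, rfl⟩ := hL.2 b hb
    have := hid a ha
    change corr H g (cup H (lefPow C D n) a) = a at this
    rw [this]

end Pool.Agent.K1H14.LD
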