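import Pool.Agent.K1H14.LD.Van

/-!
# The rank criterion
-/

open CategoryTheory AlgebraicGeometry

universe u v w

namespace Pool.Agent.K1H14.LD

open Pool.Agent.H914 Pool.Agent.H914.VarClass Pool.Agent.H914.VarClass.Obj Pool.Agent.W492.BB
  Pool.Agent.W550.Corr Pool.Agent.TH133 Pool.Agent.TH829.Prime Pool.Agent.TH829.Kim
  Pool.Agent.Y110

set_option linter.unusedSectionVars false

variable {k : Type u} [Field k] {𝒱 : VarClass k} {C : TheoryData.{u, v, 0} 𝒱 ℚ}
  [hC : IsChowProj C] {K : Type w} [Field K]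
  {H : WeilTheoryData.{u, v, w} C K} [hH : IsWeilProj H] {X Y Z W P : 𝒱.Obj}

include hC

/-- Degrees of compositions. -/
lemma comp_gr {c e r : ℤ} {Γ Δ : C.A (X.prod X)} (hΓ : Γ ∈ C.gr (X.prod X) c)
    (hΔ : Δ ∈ C.gr (X.prod X) e) (h : c + e = r + X.dim) : C.comp Γ Δ ∈ C.gr (X.prod X) r := by
  have h1 := comp_mem C (e := c - X.dim) (e' := e - X.dim) (Γ := Γ) (Δ := Δ)
    (by rwa [add_sub_cancel]) (by rwa [add_sub_cancel])
  have e1 : (X.dim : ℤ) + (c - X.dim + (e - X.dim)) = r := by linarith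
  rwa [e1] at h1

/-- The intersection number of `a` with the transpose of `g` is the trace of `g ∘ a`. -/
lemma deg_pair (hne : ∀ X : 𝒱.Obj, (1 : C.A X) ≠ 0) {c e : ℤ} {a g : C.A (X.prod X)}
    (ha : a ∈ C.gr (X.prod X) c) (hg : g ∈ C.gr (X.prod X) e) (hce : c + e = 2 * X.dim) {q : ℚ}
    (hq : HasDegree C (ev (C.comp a g) (𝟙 X) (𝟙 X)) q) : HasDegree C (a * tp C g) q := by
  obtain ⟨r, hr⟩ := exists_hasDegree (C := C) (X := X.prod X) (x := a * tp C g) (by
    have h := C.mul_mem ha (tp_mem C hg)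
    rw [dim_prod]
    have e1 : c + e = ((X.dim + X.dim : ℕ) : ℤ) := by push_cast; linarith
    rwa [e1] at h)
  have h1 := hasDegree_push (fst X X) hr
  rw [ev_comp] at hq
  have e1 : ev a (fst X X ≫ 𝟙 X) (snd X X) = a := by
    rw [Category.comp_id, ev_univ]
  have e2 : ev g (snd X X) (fst X X ≫ 𝟙 X) = tp C g := by
    rw [Category.comp_id]
    rfl
  rw [e1, e2] at hq
  rwa [hasDegree_uniq (hne X) h1 hq] at hr

include hH

/-- A correspondence acting as zero is homologically trivial. -/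
lemma cl_zero_of {γ : C.A (X.prod X)} (h : ∀ (l : ℤ), ∀ a ∈ H.gr X l, H.act (H.cl γ) a = 0) :
    H.cl γ = 0 := by
  obtain ⟨m, p, u₀, v₀, hu₀, hv₀, huv⟩ := exists_kunneth H X
  have h2 : H.cl γ = H.comp (H.cl (dg C X)) (H.cl γ) := by rw [cl_dg, dg_comp]
  rw [h2, huv, sum_comp]
  refine Finset.sum_eq_zero fun i _ => ?_
  rw [comp_ext_act, h _ _ (hv₀ i), TheoryData.ext_zero_right]

lemma cl_eq_of {γ δ : C.A (X.prod X)} (h : ∀ (l : ℤ), ∀ a ∈ H.gr X l,
    H.act (H.cl γ) a = H.act (H.cl δ) a) : H.cl γ = H.cl δ := by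
  rw [← sub_eq_zero, ← map_sub]
  refine cl_zero_of fun l a ha => ?_
  rw [map_sub, TheoryData.act_sub, h l a ha, sub_self]

/-- `π` acts on the homogeneous classes. -/
lemma act_pi {n : ℕ} {π : C.A (X.prod X)} (hπ : IsKunneth H X n π) {l : ℤ} {a : H.A X}
    (ha : a ∈ H.gr X l) : H.act (H.cl π) a = if l = n then a else 0 := hπ.2 l a ha

/-- The (anti)symmetrizations of an idempotent of rank less than the number of factors. -/
lemma van_of_rank (hg : GradedCommutative H) {s : Bool} {n : ℤ} (hs : Par s n)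
    {γ : C.A (X.prod X)} (hγ : γ ∈ C.gr (X.prod X) X.dim)
    (h0 : ∀ (l : ℤ) (a : H.A X), a ∈ H.gr X l → l ≠ n → H.act (H.cl γ) a = 0)
    (h1 : ∀ a ∈ H.gr X n, H.act (H.cl γ) (H.act (H.cl γ) a) = H.act (H.cl γ) a) {j : ℕ}
    (hj : Module.finrank K ((H.gr X n).map (H.actL (H.cl γ))) < j) :
    Van (ι := Fin j) (homFam H) s (fun _ _ => γ) (j * X.dim) := by
  obtain ⟨u, v, hu, hv, huv, -⟩ := rank_data hg hs hγ h0 h1 rfl
  have hs' : Par s (2 * X.dim - n) := by
    unfold Par at hs ⊢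
    cases s
    · simp only [Bool.false_eq_true, if_false] at hs ⊢
      rw [Int.odd_sub, Int.odd_mul]
      have : ¬ Odd (2 : ℤ) := by decide
      simp only [this, false_and, false_iff, Int.not_even_iff_odd]
      exact hs
    · simp only [if_true] at hs ⊢
      rw [Int.even_sub]
      simp [hs]
  intro W x y
  refine ⟨?_, cl_gd_eq_zero hg s hu hv (fun _ => hs') (fun _ => hs) huv hj x y⟩
  have := gd_gr (ι := Fin j) (s := s) hγ x y
  rwa [Fintype.card_fin] at this

/-- The number of factors is at most the rank if the (anti)symmetrization of an idempotent is not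
numerically trivial (converse). -/
lemma not_van_of_rank (hg : GradedCommutative H) {s : Bool} {n : ℤ} (hs : Par s n)
    {γ : C.A (X.prod X)} (hγ : γ ∈ C.gr (X.prod X) X.dim)
    (h0 : ∀ (l : ℤ) (a : H.A X), a ∈ H.gr X l → l ≠ n → H.act (H.cl γ) a = 0)
    (h1 : ∀ a ∈ H.gr X n, H.act (H.cl γ) (H.act (H.cl γ) a) = H.act (H.cl γ) a)
    (hn : ∀ a ∈ H.gr X n, H.act (H.cl γ) a ∈ H.gr X n) {m : ℕ}
    (hj : m + 1 ≤ Module.finrank K ((H.gr X n).map (H.actL (H.cl γ)))) :
    ¬ Van (ι := Fin (m + 1)) (numFam C) s (fun _ _ => γ) ((m + 1 : ℕ) * X.dim) := by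
  intro hvan
  have hne : ∀ X : 𝒱.Obj, (1 : C.A X) ≠ 0 := one_ne H
  have hP := isAdequate_homFam H
  have hle := homFam_le H
  obtain ⟨u, v, hu, hv, huv, htr⟩ := rank_data hg hs hγ h0 h1 rfl
  set r := Module.finrank K ((H.gr X n).map (H.actL (H.cl γ))) with hr
  have ht := htr _ (trL_spec (hne := hne) (ofA γ hγ))
  -- the class modulo homological equivalence is an idempotent
  have hidem : mk _ hP X (ofA γ hγ) * mk _ hP X (ofA γ hγ) = mk _ hP X (ofA γ hγ) := by
    rw [← map_mul, ← sub_eq_zero, ← map_sub, mk_eq_zero, map_sub, toA_mul, toA_ofA]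
    refine ⟨Submodule.sub_mem _ (comp_mem0 C hγ hγ) hγ, ?_⟩
    rw [map_sub, sub_eq_zero]
    refine cl_eq_of fun l a ha => ?_
    rw [actH_comp]
    by_cases hl : l = n
    · subst hl
      exact h1 a ha
    · rw [h0 l a ha hl, TheoryData.act_map_zero]
  -- the contraction
  have hN := isAdequate_numFam (C := C) hne
  have h2 : ∀ (W : 𝒱.Obj) (x y : Fin (m + 1) → (W ⟶ X)),
      grF s (fun _ => ofA γ hγ) W x y ∈ numFam C W (((m + 1 : ℕ) : ℤ) * X.dim) := hvan
  have h3 := iterL_mem hN m h2 (X.prod X) (fun _ => fst X X) (fun _ => snd X X)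
  rw [iterL_grF (hne := hne)] at h3
  have h4 : evL (TH829.Kim.K (trL hne X) (eta s) m (fun _ => ofA γ hγ)) (X.prod X)
      (fun _ => fst X X) (fun _ => snd X X) =
        toA (TH829.Kim.K (trL hne X) (eta s) m (fun _ => ofA γ hγ)) := ev_univ _
  rw [h4] at h3
  have h5 : toA (TH829.Kim.K (trL hne X) (eta s) m (fun _ => ofA γ hγ)) ∈
      numFam C (X.prod X) X.dim := by
    refine hN.congr ?_ h3
    push_cast; ring
  have h6 := trL_of_num (hne := hne) h5
  rw [← trP_mk (hP := hP) (hle := hle), ← K_mk (hP := hP) (hle := hle), K_idem _ _ hidem, map_smul,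
    trP_mk, smul_eq_mul, ht, mul_eq_zero, Finset.prod_eq_zero_iff] at h6
  have hsgn : eta s = -(sgn s : ℚ) := by
    unfold eta sgn
    cases s
    · simp
    · simp
  have hsgn0 : (sgn s : ℚ) ≠ 0 := by
    unfold sgn
    cases s
    · simp
    · simp
  have hr0 : (r : ℚ) ≠ 0 := by
    have : r ≠ 0 := by omega
    exact_mod_cast this
  rcases h6 with ⟨j, hj1, hj2⟩ | h6
  · rw [Finset.mem_range] at hj1
    rw [hsgn] at hj2
    have h7 : (sgn s : ℚ) * ((r : ℚ) - (j + 1)) = 0 := by linarith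
    rcases mul_eq_zero.1 h7 with h8 | h8
    · exact hsgn0 h8
    · have h9 : (r : ℚ) = ((j + 1 : ℕ) : ℚ) := by push_cast; linarith
      have h10 : r = j + 1 := by exact_mod_cast h9
      omega
  · rcases mul_eq_zero.1 h6 with h8 | h8
    · exact hsgn0 h8
    · exact hr0 h8

end Pool.Agent.K1H14.LD
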