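import Pool.Agent.K1H14.LD.Coh
import Pool.Agent.K1H14.LD.Defs

/-!
# Generalized determinants of correspondences of any degree
-/

open CategoryTheory AlgebraicGeometry

universe u v w

namespace Pool.Agent.K1H14.LD

open Pool.Agent.H914 Pool.Agent.H914.VarClass Pool.Agent.H914.VarClass.Obj Pool.Agent.W492.BB
  Pool.Agent.W550.Corr Pool.Agent.TH133 Pool.Agent.TH829.Prime Pool.Agent.TH829.Kim
  Pool.Agent.Y110

set_option linter.unusedSectionVars false

variable {k : Type u} [Field k] {𝒱 : VarClass k} {C : TheoryData.{u, v, 0} 𝒱 ℚ}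
  [hC : IsChowProj C] {X Y Z W P : 𝒱.Obj} {ι : Type} [Fintype ι] [DecidableEq ι]

include hC

lemma Van.congr' {I : Family C} {s : Bool} {p : ι → ι → C.A (X.prod X)} {e e' : ℤ} (h : e = e')
    (hp : Van I s p e) : Van I s p e' := h ▸ hp

lemma Van.col' {I : Family C} (hI : IsAdequate C I) {s : Bool} {p : ι → ι → C.A (X.prod X)} {e : ℤ}
    (h : Van I s p e) (j : ι) {b : C.A (X.prod X)} {c : ℤ} (hb : b ∈ C.gr (X.prod X) c) :
    Van I s (fun i l => if l = j then C.comp (p i l) b else p i l) (e + (c - X.dim)) := by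
  intro W x y
  rw [gd_col]
  have h1 := hI.push_mem (fst W X) (hI.mul_mem' (ev_mem hb (snd W X) (fst W X ≫ y j))
    (h (W.prod X) (fun k => fst W X ≫ x k)
      (Function.update (fun k => fst W X ≫ y k) j (snd W X))))
  refine hI.congr ?_ h1
  rw [dim_prod]; push_cast; ring

/-- All columns composed with a correspondence. -/
lemma Van.cols' {I : Family C} (hI : IsAdequate C I) {s : Bool} {p : ι → ι → C.A (X.prod X)} {e : ℤ}
    (h : Van I s p e) {b : C.A (X.prod X)} {c : ℤ} (hb : b ∈ C.gr (X.prod X) c) :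
    Van I s (fun i j => C.comp (p i j) b) (e + (Fintype.card ι : ℤ) * (c - X.dim)) := by
  have key : ∀ T : Finset ι, Van I s (fun i j => if j ∈ T then C.comp (p i j) b else p i j)
      (e + (T.card : ℤ) * (c - X.dim)) := by
    intro T
    induction T using Finset.induction_on with
    | empty => simpa using h
    | insert l T hl ih =>
      have h1 := Van.col' hI ih l hb
      rw [Finset.card_insert_of_notMem hl]
      have h2 : e + ((T.card + 1 : ℕ) : ℤ) * (c - X.dim) =
          e + (T.card : ℤ) * (c - X.dim) + (c - X.dim) := by push_cast; ring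
      rw [h2]
      convert h1 using 1
      funext i j
      by_cases hj : j = l
      · subst hj
        rw [if_pos (Finset.mem_insert_self _ _), if_pos rfl, if_neg hl]
      · rw [if_neg hj]
        by_cases hjT : j ∈ T
        · rw [if_pos hjT, if_pos (Finset.mem_insert_of_mem hjT)]
        · rw [if_neg hjT, if_neg (by simp [hj, hjT])]
  have := key Finset.univ
  simpa using this

lemma prod_gr {c : ℤ} {a : ι → C.A W} (ha : ∀ i, a i ∈ C.gr W c) (S : Finset ι) :
    ∏ i ∈ S, a i ∈ C.gr W ((S.card : ℤ) * c) := by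
  induction S using Finset.induction_on with
  | empty =>
    rw [Finset.prod_empty, Finset.card_empty, Nat.cast_zero, zero_mul]
    exact C.one_mem W
  | insert j S hj ihS =>
    rw [Finset.prod_insert hj, Finset.card_insert_of_notMem hj]
    have e1 : ((S.card + 1 : ℕ) : ℤ) * c = c + (S.card : ℤ) * c := by
      push_cast; ring
    rw [e1]
    exact C.mul_mem (ha j) ihS

lemma prod_sub_mem {I : Family C} (hI : IsAdequate C I) {c : ℤ} {a b : ι → C.A W}
    (ha : ∀ i, a i ∈ C.gr W c) (hb : ∀ i, b i ∈ C.gr W c) (hab : ∀ i, a i - b i ∈ I W c)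
    (S : Finset ι) : ∏ i ∈ S, a i - ∏ i ∈ S, b i ∈ I W ((S.card : ℤ) * c) := by
  induction S using Finset.induction_on with
  | empty =>
    rw [Finset.prod_empty, Finset.prod_empty, sub_self]
    exact Submodule.zero_mem _
  | insert j S hj ihS =>
    rw [Finset.prod_insert hj, Finset.prod_insert hj, Finset.card_insert_of_notMem hj]
    have e1 : ((S.card + 1 : ℕ) : ℤ) * c = c + (S.card : ℤ) * c := by
      push_cast; ring
    have e2 : a j * ∏ i ∈ S, a i - b j * ∏ i ∈ S, b i =
        (a j - b j) * ∏ i ∈ S, a i + b j * (∏ i ∈ S, a i - ∏ i ∈ S, b i) := by ring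
    rw [e1, e2]
    exact Submodule.add_mem _ (hI.mul_mem (hab j) (prod_gr ha S)) (hI.mul_mem' (hb j) ihS)

/-- Equivalent correspondences have equivalent determinants. -/
lemma gd_sub_mem {I : Family C} (hI : IsAdequate C I) {s : Bool} {c : ℤ} {a b : C.A (X.prod X)}
    (ha : a ∈ C.gr (X.prod X) c) (hb : b ∈ C.gr (X.prod X) c) (hab : a - b ∈ I (X.prod X) c)
    (x y : ι → (W ⟶ X)) : gd s (fun _ _ => a) x y - gd s (fun _ _ => b) x y ∈
      I W ((Fintype.card ι : ℤ) * c) := by
  rw [gd, gd, ← Finset.sum_sub_distrib]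
  refine Submodule.sum_mem _ fun σ _ => ?_
  rw [← smul_sub]
  have h1 := prod_sub_mem hI (W := W) (a := fun i => ev a (x i) (y (σ i)))
    (b := fun i => ev b (x i) (y (σ i))) (fun i => ev_mem ha _ _) (fun i => ev_mem hb _ _)
    (fun i => by
      have h2 := hI.pull_mem (Obj.lift (x i) (y (σ i))) hab
      rw [TheoryData.up, map_sub] at h2
      exact h2) Finset.univ
  rw [Finset.card_univ] at h1
  rw [← Int.cast_smul_eq_zsmul ℚ]
  exact Submodule.smul_mem _ _ h1

lemma gd_gr {s : Bool} {c : ℤ} {a : C.A (X.prod X)} (ha : a ∈ C.gr (X.prod X) c)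
    (x y : ι → (W ⟶ X)) : gd s (fun _ _ => a) x y ∈ C.gr W ((Fintype.card ι : ℤ) * c) := by
  rw [gd]
  refine Submodule.sum_mem _ fun σ _ => ?_
  have h1 := prod_gr (W := W) (a := fun i => ev a (x i) (y (σ i))) (fun i => ev_mem ha _ _)
    Finset.univ
  rw [Finset.card_univ] at h1
  rw [← Int.cast_smul_eq_zsmul ℚ]
  exact Submodule.smul_mem _ _ h1

/-! ### Powers -/

omit hC in
lemma isPow_coord (X : 𝒱.Obj) (m : ℕ) : IsPow (coord X m) := by
  induction m with
  | zero => exact isPow_one X
  | succ m ih => exact ih.succ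

/-- The parity of `n`. -/
def par (n : ℕ) : Bool := decide (Even n)

omit hC in
lemma par_par (n : ℕ) : Par (par n) (n : ℤ) := by
  unfold Par par
  by_cases h : Even n
  · simp [h]
  · simp [h, Nat.not_even_iff_odd.1 h]

lemma detCycle_eq (n m : ℕ) (f : C.A (X.prod X)) : detCycle C n m f =
    gd (par n) (fun _ _ => f) (fun i => fst (powObj X m) (powObj X m) ≫ coord X m i)
      (fun i => snd (powObj X m) (powObj X m) ≫ coord X m i) := by
  unfold detCycle par
  by_cases h : Even n
  · rw [if_pos h, altPower_eq, decide_eq_true h]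
  · rw [if_neg h, symPower_eq, decide_eq_false h]

/-- The determinant cycle is numerically trivial if and only if all the determinants are. -/
lemma van_iff {n m : ℕ} {f : C.A (X.prod X)} {c : ℤ} (hf : f ∈ C.gr (X.prod X) c) :
    NumTrivial C (((m + 1 : ℕ) : ℤ) * c) (detCycle C n m f) ↔
      Van (ι := Fin (m + 1)) (numFam C) (par n) (fun _ _ => f) (((m + 1 : ℕ) : ℤ) * c) := by
  constructor
  · intro h W x y
    obtain ⟨g1, h1⟩ := (isPow_coord X m).exists_lift W x
    obtain ⟨g2, h2⟩ := (isPow_coord X m).exists_lift W y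
    have h0 : detCycle C n m f ∈ numFam C ((powObj X m).prod (powObj X m))
        (((m + 1 : ℕ) : ℤ) * c) := by
      refine ⟨?_, h⟩
      rw [detCycle_eq]
      have := gd_gr (ι := Fin (m + 1)) (s := par n) hf
        (fun i => fst (powObj X m) (powObj X m) ≫ coord X m i)
        (fun i => snd (powObj X m) (powObj X m) ≫ coord X m i)
      rwa [Fintype.card_fin] at this
    have h3 : C.pull (Obj.lift g1 g2) (detCycle C n m f) = gd (par n) (fun _ _ => f) x y := by
      rw [detCycle_eq, pull_gd]
      congr 1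
      · funext i
        rw [lift_fst_assoc, h1]
      · funext i
        rw [lift_snd_assoc, h2]
    rw [← h3]
    by_cases hz : ∃ X : 𝒱.Obj, (1 : C.A X) = 0
    · -- the trivial theory
      obtain ⟨Y, hY⟩ := hz
      have hall : ∀ Z : 𝒱.Obj, (1 : C.A Z) = 0 := by
        intro Z
        have h4 := isAdequate_bot (C := C).one_mem_of (X := Y) (by
          rw [hY]
          exact Submodule.zero_mem _) Z
        exact (Submodule.mem_bot _).1 h4
      have h5 : C.pull (Obj.lift g1 g2) (detCycle C n m f) = 0 := by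
        rw [← mul_one (C.pull (Obj.lift g1 g2) (detCycle C n m f)), hall, mul_zero]
      rw [h5]
      exact Submodule.zero_mem _
    · push Not at hz
      exact (isAdequate_numFam hz).pull_mem _ h0
  · intro h
    have h1 := h _ (fun i => fst (powObj X m) (powObj X m) ≫ coord X m i)
      (fun i => snd (powObj X m) (powObj X m) ≫ coord X m i)
    rw [← detCycle_eq] at h1
    exact h1.2

end Pool.Agent.K1H14.LD
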